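import Pool.Agent.TH313.NA.C0

/-!
A strictly convex renorming `Y` of `c₀`, and the fact (Lindenstrauss) that operators from `c₀` to `Y`
attaining their norm kill almost all unit vectors.
-/

set_option autoImplicit false
open Filter Topology Set
open scoped ENNReal

namespace Pool.Agent.TH313.PA

universe u v

variable {𝕜 : Type u} [RCLike 𝕜]

variable (𝕜) in
/-- the Hilbert space `ℓ₂` -/
abbrev L2 : Type u := lp (fun _ : ℕ => 𝕜) 2

theorem two_toReal : (2 : ℝ≥0∞).toReal = ((2 : ℕ) : ℝ) := by norm_num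

theorem norm_term (f : C0 𝕜) (n : ℕ) :
    ‖((1 / 2 : ℝ) ^ n : 𝕜) * f n‖ ^ (2 : ℝ≥0∞).toReal ≤ (1 / 2 : ℝ) ^ n * ‖f‖ ^ 2 := by
  rw [two_toReal, Real.rpow_natCast, norm_mul, mul_pow]
  have h1 : ‖(((1 / 2 : ℝ) : 𝕜) ^ n)‖ = (1 / 2 : ℝ) ^ n := by
    rw [norm_pow, RCLike.norm_ofReal]
    norm_num
  rw [h1]
  have h2 : ((1 / 2 : ℝ) ^ n) ^ 2 ≤ (1 / 2 : ℝ) ^ n := by
    have h3 : (1 / 2 : ℝ) ^ n ≤ 1 := pow_le_one₀ (by norm_num) (by norm_num)
    have h4 : 0 < (1 / 2 : ℝ) ^ n := by positivity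
    nlinarith
  have h3 := C0.norm_coe_le f n
  gcongr

theorem summable_term (f : C0 𝕜) :
    Summable fun n : ℕ => ‖((1 / 2 : ℝ) ^ n : 𝕜) * f n‖ ^ (2 : ℝ≥0∞).toReal :=
  Summable.of_nonneg_of_le (fun n => by positivity) (norm_term f)
    (summable_geometric_two.mul_right _)

/-- the operator `f ↦ (2⁻ⁿ f n)` from `c₀` to `ℓ₂` -/
noncomputable def DD : C0 𝕜 →ₗ[𝕜] L2 𝕜 where
  toFun f := ⟨fun n => ((1 / 2 : ℝ) ^ n : 𝕜) * f n, memℓp_gen (summable_term f)⟩
  map_add' f g := by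
    ext n
    change _ * (f n + g n) = _ * f n + _ * g n
    ring
  map_smul' c f := by
    ext n
    change _ * (c * f n) = c * (_ * f n)
    ring

theorem DD_apply (f : C0 𝕜) (n : ℕ) : (DD f : ℕ → 𝕜) n = ((1 / 2 : ℝ) ^ n : 𝕜) * f n := rfl

theorem norm_DD_le (f : C0 𝕜) : ‖DD f‖ ≤ 2 * ‖f‖ := by
  refine lp.norm_le_of_tsum_le (by norm_num) (by positivity) ?_
  refine (Summable.tsum_le_tsum (norm_term f) (summable_term f)
    (summable_geometric_two.mul_right _)).trans ?_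
  rw [tsum_mul_right, tsum_geometric_two, two_toReal, Real.rpow_natCast]
  nlinarith [sq_nonneg ‖f‖]

theorem DD_injective : Function.Injective (DD (𝕜 := 𝕜)) := by
  rw [injective_iff_map_eq_zero]
  intro f hf
  ext n
  have h : (DD f : ℕ → 𝕜) n = 0 := by rw [hf]; rfl
  rw [DD_apply] at h
  rcases mul_eq_zero.1 h with h | h
  · exfalso
    have h2 : (((1 / 2 : ℝ) : 𝕜)) ≠ 0 := by
      rw [Ne, RCLike.ofReal_eq_zero]
      norm_num
    exact pow_ne_zero n h2 h
  · exact h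

variable (𝕜) in
/-- the space `Y`: `c₀` with the norm `‖f‖ + ‖D f‖` -/
def YY : Type u := C0 𝕜

instance : AddCommGroup (YY 𝕜) := inferInstanceAs (AddCommGroup (C0 𝕜))
instance : Module 𝕜 (YY 𝕜) := inferInstanceAs (Module 𝕜 (C0 𝕜))

/-- the element of `c₀` underlying an element of `Y` -/
def fromY : YY 𝕜 →ₗ[𝕜] C0 𝕜 := LinearMap.id

theorem fromY_injective : Function.Injective (fromY (𝕜 := 𝕜)) := fun _ _ h => h

noncomputable instance : Norm (YY 𝕜) := ⟨fun f => ‖fromY f‖ + ‖DD (fromY f)‖⟩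

theorem YY.norm_def (f : YY 𝕜) : ‖f‖ = ‖fromY f‖ + ‖DD (fromY f)‖ := rfl

theorem YY.core : NormedSpace.Core 𝕜 (YY 𝕜) where
  norm_nonneg f := by rw [YY.norm_def]; positivity
  norm_smul c f := by
    rw [YY.norm_def, YY.norm_def, map_smul, map_smul, norm_smul, norm_smul]
    ring
  norm_triangle f g := by
    rw [YY.norm_def, YY.norm_def, YY.norm_def, map_add, map_add]
    linarith [norm_add_le (fromY f) (fromY g), norm_add_le (DD (fromY f)) (DD (fromY g))]
  norm_eq_zero_iff f := by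
    rw [YY.norm_def]
    constructor
    · intro h
      have h1 : ‖fromY f‖ = 0 := by
        linarith [norm_nonneg (fromY f), norm_nonneg (DD (fromY f))]
      exact fromY_injective (by rw [norm_eq_zero.1 h1, map_zero])
    · rintro rfl
      simp

noncomputable instance : NormedAddCommGroup (YY 𝕜) := NormedAddCommGroup.ofCore YY.core
noncomputable instance : NormedSpace 𝕜 (YY 𝕜) := NormedSpace.ofCore YY.core

variable (𝕜) in
/-- the identity map from `c₀` onto `Y` -/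
noncomputable def toYY : C0 𝕜 ≃L[𝕜] YY 𝕜 :=
  LinearEquiv.toContinuousLinearEquivOfBounds
    ({ toFun := fun w => w, map_add' := fun _ _ => rfl, map_smul' := fun _ _ => rfl,
       invFun := fun w => w, left_inv := fun _ => rfl, right_inv := fun _ => rfl } :
       C0 𝕜 ≃ₗ[𝕜] YY 𝕜) 3 1
    (fun w => by
      change ‖w‖ + ‖DD w‖ ≤ 3 * ‖w‖
      linarith [norm_DD_le w])
    (fun w => by
      rw [one_mul]
      change ‖fromY w‖ ≤ ‖fromY w‖ + ‖DD (fromY w)‖
      linarith [norm_nonneg (DD (fromY w))])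

theorem fromY_toYY (f : C0 𝕜) : fromY (toYY 𝕜 f) = f := rfl

instance : CompleteSpace (YY 𝕜) :=
  ((toYY 𝕜).symm.isUniformEmbedding.isUniformInducing.completeSpace_congr
    (toYY 𝕜).symm.surjective).mpr inferInstance

/-- the consequence of strict convexity which is used -/
theorem YY.eq_zero_of_le {u v : YY 𝕜} (h1 : ‖u + v‖ ≤ ‖u‖) (h2 : ‖u - v‖ ≤ ‖u‖) : v = 0 := by
  have hsum : (u + v) + (u - v) = (2 : ℕ) • u := by rw [two_nsmul]; abel
  have e1 : (DD (fromY (u + v)) : L2 𝕜) + DD (fromY (u - v)) = (2 : ℕ) • DD (fromY u) := by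
    rw [← map_add, ← map_add, hsum, map_nsmul, map_nsmul]
  have e2 : (fromY (u + v) : C0 𝕜) + fromY (u - v) = (2 : ℕ) • fromY u := by
    rw [← map_add, hsum, map_nsmul]
  have n1 : ‖(2 : ℕ) • DD (fromY u)‖ = 2 * ‖DD (fromY u)‖ := by
    rw [← Nat.cast_smul_eq_nsmul ℝ, norm_smul]
    norm_num
  have n2 : ‖(2 : ℕ) • fromY u‖ = 2 * ‖fromY u‖ := by
    rw [← Nat.cast_smul_eq_nsmul 𝕜, norm_smul]
    norm_num
  have t1 := norm_add_le (DD (fromY (u + v))) (DD (fromY (u - v)))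
  have t2 := norm_add_le (fromY (u + v)) (fromY (u - v))
  rw [e1, n1] at t1
  rw [e2, n2] at t2
  rw [YY.norm_def, YY.norm_def] at h1 h2
  have hray : SameRay ℝ (DD (fromY (u + v))) (DD (fromY (u - v))) := by
    rw [sameRay_iff_norm_add, e1, n1]
    linarith
  have hn1 : ‖DD (fromY (u + v))‖ + ‖DD (fromY (u - v))‖ = 2 * ‖DD (fromY u)‖ := by linarith
  have hn2 : ‖fromY (u + v)‖ + ‖fromY (u - v)‖ = 2 * ‖fromY u‖ := by linarith
  -- both vectors are multiples of one of them; compare the norms in `Y`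
  have hn3 : ‖u + v‖ = ‖u‖ := by
    rw [YY.norm_def, YY.norm_def]
    linarith
  have hn4 : ‖u - v‖ = ‖u‖ := by
    rw [YY.norm_def, YY.norm_def]
    linarith
  have hsm := hray.norm_smul_eq
  have hsm' : ((‖DD (fromY (u + v))‖ : ℝ) : 𝕜) • (u - v) =
      ((‖DD (fromY (u - v))‖ : ℝ) : 𝕜) • (u + v) := by
    apply fromY_injective
    apply DD_injective
    rw [map_smul, map_smul, map_smul, map_smul]
    rw [RCLike.real_smul_eq_coe_smul (K := 𝕜), RCLike.real_smul_eq_coe_smul (K := 𝕜)] at hsm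
    exact hsm
  have hnn := congrArg norm hsm'
  rw [norm_smul, norm_smul, RCLike.norm_ofReal, RCLike.norm_ofReal, abs_of_nonneg (norm_nonneg _),
    abs_of_nonneg (norm_nonneg _), hn3, hn4] at hnn
  by_cases hu : ‖u‖ = 0
  · rw [hu, norm_eq_zero] at hn3
    have hu' : u = 0 := norm_eq_zero.1 hu
    rw [hu', zero_add] at hn3
    exact hn3
  have hab : ‖DD (fromY (u + v))‖ = ‖DD (fromY (u - v))‖ := mul_right_cancel₀ hu hnn
  by_cases hz : ‖DD (fromY (u - v))‖ = 0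
  · exfalso
    rw [hab, hz] at hn1
    have h0 : DD (fromY u) = 0 := norm_eq_zero.1 (by linarith)
    have h00 : fromY u = 0 := DD_injective (by rw [h0, map_zero])
    have : u = 0 := fromY_injective (by rw [h00, map_zero])
    exact hu (by rw [this, norm_zero])
  have hc : ((‖DD (fromY (u - v))‖ : ℝ) : 𝕜) ≠ 0 := by
    rw [Ne, RCLike.ofReal_eq_zero]
    exact hz
  rw [hab] at hsm'
  have heq : u - v = u + v := smul_right_injective _ hc hsm'
  have h2v : (2 : 𝕜) • v = 0 := by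
    rw [two_smul]
    have : v + v = (u + v) - (u - v) := by abel
    rw [this, heq, sub_self]
  exact (smul_eq_zero.1 h2v).resolve_left two_ne_zero

/-- **Lindenstrauss.** An operator from `c₀` to `Y` attaining its norm kills some unit vector. -/
theorem exists_eq_zero (S : C0 𝕜 →L[𝕜] YY 𝕜) (x : C0 𝕜) (hx : ‖x‖ = 1)
    (hS : ∀ y : C0 𝕜, ‖y‖ ≤ 1 → ‖S y‖ ≤ ‖S x‖) : ∃ n, S (e n) = 0 := by
  obtain ⟨n, hn⟩ : ∃ n, ‖x n‖ < 1 / 2 := by
    obtain ⟨N, hN⟩ := Metric.tendsto_atTop.1 (C0.tendsto x) (1 / 2) (by norm_num)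
    exact ⟨N, by simpa using hN N le_rfl⟩
  refine ⟨n, ?_⟩
  have hhalf : ‖((1 / 2 : ℝ) : 𝕜)‖ = 1 / 2 := by
    rw [RCLike.norm_ofReal]
    norm_num
  have key : ∀ c : 𝕜, ‖c‖ = 1 / 2 → ‖x + c • (e n : C0 𝕜)‖ ≤ 1 := by
    intro c hc
    rw [C0.norm_le_iff zero_le_one]
    intro m
    rw [ZeroAtInftyContinuousMap.add_apply, ZeroAtInftyContinuousMap.smul_apply, e_apply]
    split_ifs with h
    · rw [h, smul_eq_mul, mul_one]
      refine (norm_add_le _ _).trans ?_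
      rw [hc]
      linarith
    · rw [smul_zero, add_zero, ← hx]
      exact C0.norm_coe_le x m
  have h1 := hS _ (key ((1 / 2 : ℝ) : 𝕜) hhalf)
  have h2 := hS _ (key (-((1 / 2 : ℝ) : 𝕜)) (by rw [norm_neg, hhalf]))
  rw [map_add, map_smul] at h1 h2
  rw [neg_smul, ← sub_eq_add_neg] at h2
  have h3 := YY.eq_zero_of_le h1 h2
  refine (smul_eq_zero.1 h3).resolve_left ?_
  rw [RCLike.ofReal_eq_zero]
  norm_num

theorem norm_e_le (n : ℕ) : ‖(e n : C0 𝕜)‖ ≤ 1 := by
  have := norm_sum_e_le (𝕜 := 𝕜) {n} id Function.injective_id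
  simpa using this

theorem one_le_norm_toYY_e (n : ℕ) : 1 ≤ ‖toYY 𝕜 (e n)‖ := by
  rw [YY.norm_def, fromY_toYY]
  have h1 := C0.norm_coe_le (e n : C0 𝕜) n
  rw [e_apply, if_pos rfl, norm_one] at h1
  linarith [norm_nonneg (DD (e n : C0 𝕜))]

end Pool.Agent.TH313.PA
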