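import Mathlib

/-!
Basic facts on the space `c₀` (as `C₀(ℕ, 𝕜)`) over the real or complex scalars.
-/

set_option autoImplicit false
open Filter Topology Set

namespace Pool.Agent.TH313.PA

universe u v

/-- the Banach space `c₀` -/
abbrev C0 (𝕜 : Type u) [RCLike 𝕜] : Type u := ZeroAtInftyContinuousMap ℕ 𝕜

variable {𝕜 : Type u} [RCLike 𝕜]

theorem C0.tendsto (f : C0 𝕜) : Tendsto f atTop (𝓝 0) := by
  have h := f.zero_at_infty'
  rw [Filter.cocompact_eq_cofinite, Nat.cofinite_eq_atTop] at h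
  exact h

/-- the element of `c₀` given by a null sequence -/
def mk0 (f : ℕ → 𝕜) (h : Tendsto f atTop (𝓝 0)) : C0 𝕜 :=
  ⟨⟨f, continuous_of_discreteTopology⟩, by rw [Filter.cocompact_eq_cofinite, Nat.cofinite_eq_atTop]; exact h⟩

@[simp] theorem mk0_apply (f : ℕ → 𝕜) (h : Tendsto f atTop (𝓝 0)) (n : ℕ) : mk0 f h n = f n := rfl

theorem C0.norm_le_iff {f : C0 𝕜} {C : ℝ} (hC : 0 ≤ C) : ‖f‖ ≤ C ↔ ∀ n, ‖f n‖ ≤ C := by
  rw [← ZeroAtInftyContinuousMap.norm_toBCF_eq_norm, BoundedContinuousFunction.norm_le hC]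
  rfl

theorem C0.norm_coe_le (f : C0 𝕜) (n : ℕ) : ‖f n‖ ≤ ‖f‖ :=
  (C0.norm_le_iff (norm_nonneg f)).1 le_rfl n

/-- the unit vectors -/
def e (n : ℕ) : C0 𝕜 :=
  mk0 (Pi.single n 1) (by
    refine tendsto_const_nhds.congr' ?_
    filter_upwards [eventually_gt_atTop n] with m hm
    rw [Pi.single_eq_of_ne (by omega)])

theorem e_apply (n m : ℕ) : (e n : C0 𝕜) m = if m = n then 1 else 0 := by
  change (Pi.single n (1 : 𝕜) : ℕ → 𝕜) m = _
  rw [Pi.single_apply]

theorem sum_apply {ι : Type*} (s : Finset ι) (f : ι → C0 𝕜) (m : ℕ) :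
    (∑ i ∈ s, f i) m = ∑ i ∈ s, f i m := by
  induction s using Finset.cons_induction with
  | empty => simp
  | cons a s ha ih => rw [Finset.sum_cons, Finset.sum_cons, ZeroAtInftyContinuousMap.add_apply, ih]

theorem norm_sum_e_le {ι : Type*} (s : Finset ι) (i : ι → ℕ) (hi : Function.Injective i) :
    ‖∑ j ∈ s, (e (i j) : C0 𝕜)‖ ≤ 1 := by
  classical
  rw [C0.norm_le_iff zero_le_one]
  intro m
  rw [sum_apply]
  simp only [e_apply]
  rw [Finset.sum_ite, Finset.sum_const_zero, add_zero, Finset.sum_const]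
  have hc : (s.filter fun j => m = i j).card ≤ 1 := by
    rw [Finset.card_le_one]
    intro a ha b hb
    rw [Finset.mem_filter] at ha hb
    exact hi (ha.2.symm.trans hb.2)
  interval_cases (s.filter fun j => m = i j).card <;> simp

theorem tendsto_partial (f : C0 𝕜) :
    Tendsto (fun n => ∑ i ∈ Finset.range n, f i • (e i : C0 𝕜)) atTop (𝓝 f) := by
  rw [Metric.tendsto_atTop]
  intro ε hε
  obtain ⟨N, hN⟩ := Metric.tendsto_atTop.1 (C0.tendsto f) (ε / 2) (by positivity)
  refine ⟨N, fun n hn => ?_⟩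
  rw [dist_eq_norm]
  refine lt_of_le_of_lt ?_ (half_lt_self hε)
  rw [C0.norm_le_iff (by positivity)]
  intro m
  rw [ZeroAtInftyContinuousMap.sub_apply, sum_apply]
  simp only [ZeroAtInftyContinuousMap.smul_apply, e_apply, smul_eq_mul, mul_ite, mul_one, mul_zero]
  rw [Finset.sum_ite_eq]
  by_cases hm : m ∈ Finset.range n
  · rw [if_pos hm, sub_self, norm_zero]
    positivity
  · rw [if_neg hm, zero_sub, norm_neg]
    have := hN m (by rw [Finset.mem_range] at hm; omega)
    rw [dist_zero_right] at this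
    exact this.le

instance : TopologicalSpace.SeparableSpace (C0 𝕜) := by
  have h1 : TopologicalSpace.IsSeparable (Set.range fun n => (e n : C0 𝕜)) :=
    (Set.countable_range _).isSeparable
  have h2 := (h1.span (R := 𝕜)).closure
  rw [← TopologicalSpace.isSeparable_univ_iff]
  refine h2.mono fun f _ => ?_
  refine mem_closure_of_tendsto (tendsto_partial f) (Eventually.of_forall fun n => ?_)
  exact Submodule.sum_mem _ fun i _ => Submodule.smul_mem _ _ (Submodule.subset_span ⟨i, rfl⟩)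

end Pool.Agent.TH313.PA
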