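import Pool.Agent.TH313.NA.Space

/-!
The space `X` has property alpha, so norm-attaining operators from `X` are dense.
-/

set_option autoImplicit false
open Filter Topology Set

namespace Pool.Agent.TH313.PA

universe u v

/-- The set `NA(X, Y)` of norm-attaining operators: those `T` for which there is a vector `x` of
norm one with `‖T x‖ = ‖T‖`. -/
def NA (𝕜 : Type*) (X Y : Type*) [RCLike 𝕜] [NormedAddCommGroup X] [NormedSpace 𝕜 X]
    [NormedAddCommGroup Y] [NormedSpace 𝕜 Y] : Set (X →L[𝕜] Y) :=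
  {T | ∃ x : X, ‖x‖ = 1 ∧ ‖T x‖ = ‖T‖}

variable {𝕜 : Type u} [RCLike 𝕜]

/-- evaluation of the second component at `n` -/
noncomputable def ev (n : ℕ) : StrongDual 𝕜 (C0 𝕜) :=
  LinearMap.mkContinuous
    { toFun := fun f => f n
      map_add' := fun _ _ => rfl
      map_smul' := fun _ _ => rfl } 1 (fun f => by
        rw [one_mul]
        exact C0.norm_coe_le f n)

theorem ev_apply (n : ℕ) (f : C0 𝕜) : ev n f = f n := rfl

theorem small (n m : ℕ) : ‖(dd 𝕜 n).2 m‖ < 1 / 4 :=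
  (C0.norm_coe_le _ m).trans_lt (dd_mem 𝕜 n).2

theorem den_ge (n : ℕ) : 3 / 4 ≤ ‖1 + (dd 𝕜 n).2 n‖ := by
  have h1 := small (𝕜 := 𝕜) n n
  have h2 : ‖(1 : 𝕜)‖ ≤ ‖1 + (dd 𝕜 n).2 n‖ + ‖(dd 𝕜 n).2 n‖ := by
    have := norm_sub_le (1 + (dd 𝕜 n).2 n) ((dd 𝕜 n).2 n)
    rwa [add_sub_cancel_right] at this
  rw [norm_one] at h2
  linarith

theorem den_ne (n : ℕ) : 1 + (dd 𝕜 n).2 n ≠ 0 := by
  have := den_ge (𝕜 := 𝕜) n
  intro h
  rw [h, norm_zero] at this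
  norm_num at this

/-- the functionals of property alpha -/
noncomputable def xs (n : ℕ) : W 𝕜 →L[𝕜] 𝕜 :=
  (1 + (dd 𝕜 n).2 n)⁻¹ • (ev n).comp (ContinuousLinearMap.snd 𝕜 _ _)

theorem xs_apply (n : ℕ) (w : W 𝕜) : xs n w = (1 + (dd 𝕜 n).2 n)⁻¹ * w.2 n := rfl

theorem xs_self (n : ℕ) : xs n (xx 𝕜 n) = 1 := by
  rw [xs_apply]
  change (1 + (dd 𝕜 n).2 n)⁻¹ * ((dd 𝕜 n).2 + e n : C0 𝕜) n = 1
  rw [ZeroAtInftyContinuousMap.add_apply, e_apply, if_pos rfl, add_comm ((dd 𝕜 n).2 n)]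
  exact inv_mul_cancel₀ (den_ne n)

theorem xs_other {n m : ℕ} (h : m ≠ n) : ‖xs n (xx 𝕜 m)‖ ≤ 1 / 3 := by
  rw [xs_apply]
  change ‖(1 + (dd 𝕜 n).2 n)⁻¹ * ((dd 𝕜 m).2 + e m : C0 𝕜) n‖ ≤ 1 / 3
  rw [ZeroAtInftyContinuousMap.add_apply, e_apply, if_neg h.symm, add_zero, norm_mul, norm_inv]
  have h1 := den_ge (𝕜 := 𝕜) n
  have h2 := small (𝕜 := 𝕜) m n
  rw [inv_mul_le_iff₀ (by linarith)]
  linarith

theorem xs_mem (n m : ℕ) : ‖xs n (xx 𝕜 m)‖ ≤ 1 := by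
  by_cases h : m = n
  · rw [h, xs_self, norm_one]
  · exact (xs_other h).trans (by norm_num)

/-- `xs n` as an element of `FF` -/
noncomputable def xsF (n : ℕ) : FF 𝕜 := ⟨xs n, xs_mem n⟩

/-- the points `x n` of `X` -/
noncomputable def px (n : ℕ) : XX 𝕜 := toXX 𝕜 (xx 𝕜 n)

theorem norm_px (n : ℕ) : ‖(px n : XX 𝕜)‖ = 1 := by
  apply le_antisymm
  · exact (norm_JJ_le_iff (𝕜 := 𝕜) (w := xx 𝕜 n) zero_le_one).2 fun f => f.2 n
  · have h := (norm_JJ_le_iff (𝕜 := 𝕜) (w := xx 𝕜 n) (norm_nonneg (JJ 𝕜 (xx 𝕜 n)))).1 le_rfl (xsF n)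
    change ‖xs n (xx 𝕜 n)‖ ≤ _ at h
    rw [xs_self, norm_one] at h
    exact h

theorem FF_le_norm (f : FF 𝕜) (x : XX 𝕜) : ‖f.1 ((toXX 𝕜).symm x)‖ ≤ ‖x‖ :=
  (norm_JJ_le_iff (𝕜 := 𝕜) (w := (toXX 𝕜).symm x) (norm_nonneg x)).1 le_rfl f

/-- `xs n` as a functional on `X` -/
noncomputable def xsX (n : ℕ) : XX 𝕜 →L[𝕜] 𝕜 := (xs n).comp ((toXX 𝕜).symm : XX 𝕜 →L[𝕜] W 𝕜)

theorem norm_xsX_le (n : ℕ) : ‖(xsX n : XX 𝕜 →L[𝕜] 𝕜)‖ ≤ 1 :=
  ContinuousLinearMap.opNorm_le_bound _ zero_le_one fun x => by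
    rw [one_mul]
    exact FF_le_norm (xsF n) x

theorem xsX_px (n m : ℕ) : xsX n (px m : XX 𝕜) = xs n (xx 𝕜 m) := rfl

/-- An operator on `X` which is bounded by `c` on the points `x n` has norm at most `c`. -/
theorem opNorm_le {Y : Type v} [NormedAddCommGroup Y] [NormedSpace 𝕜 Y] (T : XX 𝕜 →L[𝕜] Y)
    {c : ℝ} (hc : 0 ≤ c) (h : ∀ n, ‖T (px n)‖ ≤ c) : ‖T‖ ≤ c := by
  refine le_of_forall_pos_le_add fun ε hε => ?_
  have hr : 0 < c + ε := by linarith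
  refine ContinuousLinearMap.opNorm_le_bound _ hr.le fun x => ?_
  obtain ⟨g, hg, hgx⟩ := exists_dual_vector'' 𝕜 (T x)
  have hn : ‖(((c + ε)⁻¹ : ℝ) : 𝕜)‖ = (c + ε)⁻¹ := by
    rw [RCLike.norm_ofReal, abs_of_pos (inv_pos.2 hr)]
  let f : FF 𝕜 := ⟨(((c + ε)⁻¹ : ℝ) : 𝕜) • ((g.comp T).comp (toXX 𝕜 : W 𝕜 →L[𝕜] XX 𝕜)), fun n => by
    change ‖(((c + ε)⁻¹ : ℝ) : 𝕜) • g (T (px n))‖ ≤ 1
    rw [norm_smul, hn, inv_mul_le_iff₀ hr, mul_one]
    refine (g.le_opNorm _).trans ?_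
    refine (mul_le_of_le_one_left (norm_nonneg _) hg).trans ?_
    linarith [h n]⟩
  have hf := FF_le_norm f x
  change ‖(((c + ε)⁻¹ : ℝ) : 𝕜) • g (T x)‖ ≤ ‖x‖ at hf
  rw [norm_smul, hn, hgx, RCLike.norm_ofReal, abs_of_nonneg (norm_nonneg _),
    inv_mul_le_iff₀ hr] at hf
  exact hf

/-- **Lindenstrauss.** Norm-attaining operators from `X` are dense. -/
theorem dense_NA (Y : Type v) [NormedAddCommGroup Y] [NormedSpace 𝕜 Y] :
    Dense (NA 𝕜 (XX 𝕜) Y) := by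
  intro T
  rw [Metric.mem_closure_iff]
  intro ε hε
  by_cases hT : ‖T‖ = 0
  · refine ⟨T, ⟨px 0, norm_px 0, ?_⟩, by simpa using hε⟩
    have : T = 0 := norm_eq_zero.1 hT
    rw [this]
    simp
  have hT0 : 0 < ‖T‖ := lt_of_le_of_ne (norm_nonneg T) (Ne.symm hT)
  -- the size of the perturbation
  obtain ⟨η, hη0, hη1, hηT⟩ : ∃ η : ℝ, 0 < η ∧ η ≤ 1 ∧ η * ‖T‖ < ε := by
    refine ⟨min 1 (ε / (2 * ‖T‖)), lt_min one_pos (by positivity), min_le_left _ _, ?_⟩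
    calc min 1 (ε / (2 * ‖T‖)) * ‖T‖ ≤ (ε / (2 * ‖T‖)) * ‖T‖ := by
          gcongr
          exact min_le_right _ _
      _ = ε / 2 := by field_simp
      _ < ε := by linarith
  -- a point where the norm is almost attained
  obtain ⟨n, hn⟩ : ∃ n, ‖T‖ * (1 + η / 3) < (1 + η) * ‖T (px n)‖ := by
    by_contra hcon
    push Not at hcon
    have h1 : ‖T‖ ≤ ‖T‖ * (1 + η / 3) / (1 + η) := by
      refine opNorm_le T (by positivity) fun n => ?_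
      rw [le_div_iff₀ (by linarith), mul_comm]
      exact hcon n
    rw [le_div_iff₀ (by linarith)] at h1
    nlinarith
  have hTn : ‖T (px n)‖ ≤ ‖T‖ := by
    have := T.le_opNorm (px n)
    rwa [norm_px, mul_one] at this
  let S : XX 𝕜 →L[𝕜] Y := T + ((η : ℝ) : 𝕜) • (xsX n).smulRight (T (px n))
  have hS : ∀ x, S x = T x + ((η : ℝ) : 𝕜) • (xsX n x • T (px n)) := fun x => rfl
  have hηn : ‖((η : ℝ) : 𝕜)‖ = η := by rw [RCLike.norm_ofReal, abs_of_pos hη0]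
  have hSn : ‖S (px n)‖ = (1 + η) * ‖T (px n)‖ := by
    rw [hS, xsX_px, xs_self, one_smul]
    have : T (px n) + ((η : ℝ) : 𝕜) • T (px n) = ((1 + η : ℝ) : 𝕜) • T (px n) := by
      rw [RCLike.ofReal_add, RCLike.ofReal_one, add_smul, one_smul]
    rw [this, norm_smul, RCLike.norm_ofReal, abs_of_pos (by linarith)]
  have hSle : ‖S‖ ≤ ‖S (px n)‖ := by
    refine opNorm_le S (norm_nonneg _) fun m => ?_
    by_cases hm : m = n
    · rw [hm]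
    rw [hSn]
    refine le_trans ?_ hn.le
    rw [hS, xsX_px]
    refine (norm_add_le _ _).trans ?_
    rw [norm_smul, norm_smul, hηn]
    have h1 : ‖T (px m)‖ ≤ ‖T‖ := by
      have := T.le_opNorm (px m)
      rwa [norm_px, mul_one] at this
    have h2 := xs_other (𝕜 := 𝕜) hm
    have h3 : ‖xs n (xx 𝕜 m)‖ * ‖T (px n)‖ ≤ 1 / 3 * ‖T‖ :=
      mul_le_mul h2 hTn (norm_nonneg _) (by norm_num)
    nlinarith
  refine ⟨S, ⟨px n, norm_px n, le_antisymm ?_ hSle⟩, ?_⟩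
  · have := S.le_opNorm (px n)
    rwa [norm_px, mul_one] at this
  · rw [dist_eq_norm]
    have h1 : T - S = -(((η : ℝ) : 𝕜) • (xsX n).smulRight (T (px n))) := by
      change T - (T + _) = _
      abel
    rw [h1, norm_neg, norm_smul, hηn, ContinuousLinearMap.norm_smulRight_apply]
    refine lt_of_le_of_lt ?_ hηT
    have := norm_xsX_le (𝕜 := 𝕜) n
    gcongr
    calc ‖(xsX n : XX 𝕜 →L[𝕜] 𝕜)‖ * ‖T (px n)‖ ≤ 1 * ‖T‖ :=
          mul_le_mul this hTn (norm_nonneg _) zero_le_one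
      _ = ‖T‖ := one_mul _

/-- the projection `(p, y) ↦ (p, 0)` of `X` -/
noncomputable def PP : XX 𝕜 →L[𝕜] XX 𝕜 :=
  LinearMap.mkContinuous
    { toFun := fun w => toXX 𝕜 (((toXX 𝕜).symm w).1, 0)
      map_add' := fun a b => by
        rw [← map_add]
        congr 1
        simp
      map_smul' := fun c a => by
        rw [RingHom.id_apply, ← map_smul]
        congr 1
        simp } 1 (fun w => by
      rw [one_mul]
      change ‖JJ 𝕜 (((toXX 𝕜).symm w).1, 0)‖ ≤ ‖JJ 𝕜 ((toXX 𝕜).symm w)‖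
      refine (norm_JJ_le _).trans ?_
      simpa using norm_fst_le ((toXX 𝕜).symm w))

/-- the embedding `p ↦ (p, 0)` of `c₀` into `X` -/
noncomputable def ii : C0 𝕜 →ₗᵢ[𝕜] XX 𝕜 where
  toFun p := toXX 𝕜 (p, 0)
  map_add' a b := by
    rw [← map_add]
    congr 1
    simp
  map_smul' c a := by
    rw [RingHom.id_apply, ← map_smul]
    congr 1
    simp
  norm_map' p := by
    change ‖JJ 𝕜 (p, 0)‖ = ‖p‖
    apply le_antisymm
    · refine (norm_JJ_le _).trans ?_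
      simp
    · exact norm_fst_le (𝕜 := 𝕜) (p, 0)

variable (𝕜) in
/-- the subspace `c₀ × {0}` of `X` -/
noncomputable def X1 : Submodule 𝕜 (XX 𝕜) := LinearMap.range (ii (𝕜 := 𝕜)).toLinearMap

theorem norm_PP_le : ‖(PP : XX 𝕜 →L[𝕜] XX 𝕜)‖ ≤ 1 := LinearMap.mkContinuous_norm_le _ zero_le_one _

theorem PP_mem (w : XX 𝕜) : PP w ∈ X1 𝕜 := ⟨((toXX 𝕜).symm w).1, rfl⟩

theorem PP_eq {w : XX 𝕜} (hw : w ∈ X1 𝕜) : PP w = w := by
  obtain ⟨p, rfl⟩ := hw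
  rfl

theorem isClosed_X1 : IsClosed (X1 𝕜 : Set (XX 𝕜)) := by
  have h : (X1 𝕜 : Set (XX 𝕜)) = {w | PP w = w} := by
    ext w
    exact ⟨fun hw => PP_eq hw, fun hw => by
      have := PP_mem w
      change PP w = w at hw
      rwa [hw] at this⟩
  rw [h]
  exact isClosed_eq PP.continuous continuous_id

variable (𝕜) in
/-- `c₀` is linearly isometric to the subspace `X1` -/
noncomputable def iX1 : C0 𝕜 ≃ₗᵢ[𝕜] X1 𝕜 := (ii (𝕜 := 𝕜)).equivRange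

end Pool.Agent.TH313.PA
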