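import Pool.Agent.TH313.NA.C0

/-!
The space `X`: the vector space `c₀ × c₀` with the norm whose unit ball is the closed absolutely
convex hull of the vectors `x n = (p n, y n + e n)`, where `(p n, y n)` runs infinitely often through
a dense subset of the set of pairs with `‖p‖ < 1`, `‖y‖ < 1/4`.
-/

set_option autoImplicit false
open Filter Topology Set

namespace Pool.Agent.TH313.PA

universe u v

variable (𝕜 : Type u) [RCLike 𝕜]

/-- the vector space underlying `X` (with the product norm) -/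
abbrev W : Type u := C0 𝕜 × C0 𝕜

/-- the pairs with `‖p‖ < 1` and `‖y‖ < 1/4` -/
def B0 : Set (W 𝕜) := {w | ‖w.1‖ < 1 ∧ ‖w.2‖ < 1 / 4}

theorem isOpen_B0 : IsOpen (B0 𝕜) :=
  (isOpen_lt (continuous_norm.comp continuous_fst) continuous_const).inter
    (isOpen_lt (continuous_norm.comp continuous_snd) continuous_const)

open Classical in
/-- the sequence `(p n, y n)` -/
noncomputable def dd (n : ℕ) : W 𝕜 :=
  if TopologicalSpace.denseSeq (W 𝕜) (Nat.unpair n).1 ∈ B0 𝕜 then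
    TopologicalSpace.denseSeq (W 𝕜) (Nat.unpair n).1 else 0

theorem dd_mem (n : ℕ) : dd 𝕜 n ∈ B0 𝕜 := by
  unfold dd
  split_ifs with h
  · exact h
  · simp [B0]

/-- the vectors `x n` -/
noncomputable def xx (n : ℕ) : W 𝕜 := ((dd 𝕜 n).1, (dd 𝕜 n).2 + e n)

/-- the functionals which are at most one in modulus on all `x n` -/
def FF : Type u := {f : W 𝕜 →L[𝕜] 𝕜 // ∀ n, ‖f (xx 𝕜 n)‖ ≤ 1}

instance : TopologicalSpace (FF 𝕜) := ⊥
instance : DiscreteTopology (FF 𝕜) := ⟨rfl⟩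

variable {𝕜}

theorem dd_pair {k : ℕ} (hk : TopologicalSpace.denseSeq (W 𝕜) k ∈ B0 𝕜) (j : ℕ) :
    dd 𝕜 (Nat.pair k j) = TopologicalSpace.denseSeq (W 𝕜) k := by
  unfold dd
  rw [Nat.unpair_pair]
  exact if_pos hk

theorem FF_le_of_mem_dense (f : FF 𝕜) (k : ℕ)
    (hk : TopologicalSpace.denseSeq (W 𝕜) k ∈ B0 𝕜) :
    ‖f.1 (TopologicalSpace.denseSeq (W 𝕜) k)‖ ≤ 1 := by
  set D := TopologicalSpace.denseSeq (W 𝕜) k with hD
  have key : ∀ N : ℕ, (N : ℝ) * ‖f.1 D‖ ≤ N + ‖f.1‖ := by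
    intro N
    have hinj : Function.Injective fun j => Nat.pair k j := fun a b h => (Nat.pair_eq_pair.1 h).2
    have hx : ∀ j, xx 𝕜 (Nat.pair k j) = D + (0, e (Nat.pair k j)) := by
      intro j
      unfold xx
      rw [dd_pair hk]
      ext1
      · simp [hD]
      · simp [hD]
    have h1 : ∑ j ∈ Finset.range N, xx 𝕜 (Nat.pair k j) =
        (N : 𝕜) • D + (0, ∑ j ∈ Finset.range N, e (Nat.pair k j)) := by
      simp only [hx]
      rw [Finset.sum_add_distrib, Finset.sum_const, Finset.card_range, ← Nat.cast_smul_eq_nsmul 𝕜]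
      congr 1
      ext1
      · simp [Prod.fst_sum]
      · simp [Prod.snd_sum]
    have h2 : (N : 𝕜) * f.1 D = ∑ j ∈ Finset.range N, f.1 (xx 𝕜 (Nat.pair k j)) -
        f.1 (0, ∑ j ∈ Finset.range N, e (Nat.pair k j)) := by
      rw [← map_sum, h1, map_add, map_smul, smul_eq_mul]
      ring
    have h3 : (N : ℝ) * ‖f.1 D‖ = ‖(N : 𝕜) * f.1 D‖ := by
      rw [norm_mul]
      simp
    rw [h3, h2]
    refine (norm_sub_le _ _).trans (add_le_add ?_ ?_)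
    · refine (norm_sum_le _ _).trans ?_
      refine (Finset.sum_le_sum fun j _ => f.2 (Nat.pair k j)).trans ?_
      simp
    · refine (f.1.le_opNorm _).trans ?_
      refine mul_le_of_le_one_right (norm_nonneg _) ?_
      rw [Prod.norm_def]
      refine max_le (by simp) ?_
      exact norm_sum_e_le _ _ hinj
  by_contra hcon
  push Not at hcon
  obtain ⟨N, hN⟩ := exists_nat_gt (‖f.1‖ / (‖f.1 D‖ - 1))
  have h4 := key N
  rw [div_lt_iff₀ (by linarith)] at hN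
  nlinarith

theorem FF_le_of_mem (f : FF 𝕜) {w : W 𝕜} (hw : w ∈ B0 𝕜) : ‖f.1 w‖ ≤ 1 := by
  have hcl : w ∈ closure (range (TopologicalSpace.denseSeq (W 𝕜)) ∩ B0 𝕜) := by
    have h := (TopologicalSpace.denseRange_denseSeq (W 𝕜)).open_subset_closure_inter
      (isOpen_B0 𝕜) hw
    rwa [inter_comm] at h
  have hclosed : IsClosed {w : W 𝕜 | ‖f.1 w‖ ≤ 1} :=
    isClosed_le (continuous_norm.comp f.1.continuous) continuous_const
  refine closure_minimal ?_ hclosed hcl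
  rintro _ ⟨⟨k, rfl⟩, hk⟩
  exact FF_le_of_mem_dense f k hk

theorem FF_bound (f : FF 𝕜) (w : W 𝕜) : ‖f.1 w‖ ≤ max ‖w.1‖ (4 * ‖w.2‖) := by
  refine le_of_forall_pos_le_add fun ε hε => ?_
  set r := max ‖w.1‖ (4 * ‖w.2‖) + ε with hr
  have hr0 : 0 < r := by
    have : 0 ≤ max ‖w.1‖ (4 * ‖w.2‖) := le_max_of_le_left (norm_nonneg _)
    linarith
  have hn : ‖((r⁻¹ : ℝ) : 𝕜)‖ = r⁻¹ := by
    rw [RCLike.norm_ofReal, abs_of_pos (inv_pos.2 hr0)]
  have hmem : ((r⁻¹ : ℝ) : 𝕜) • w ∈ B0 𝕜 := by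
    constructor
    · rw [Prod.smul_fst, norm_smul, hn, inv_mul_lt_iff₀ hr0]
      have := le_max_left ‖w.1‖ (4 * ‖w.2‖)
      linarith
    · rw [Prod.smul_snd, norm_smul, hn, inv_mul_lt_iff₀ hr0]
      have := le_max_right ‖w.1‖ (4 * ‖w.2‖)
      linarith
  have h := FF_le_of_mem f hmem
  rwa [map_smul, norm_smul, hn, inv_mul_le_iff₀ hr0, mul_one] at h

variable (𝕜) in
/-- the isometric embedding of `X` into the bounded functions on `FF` -/
noncomputable def JJ : W 𝕜 →ₗ[𝕜] (BoundedContinuousFunction (FF 𝕜) 𝕜) where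
  toFun w := BoundedContinuousFunction.ofNormedAddCommGroupDiscrete (fun f => f.1 w)
    (max ‖w.1‖ (4 * ‖w.2‖)) (fun f => FF_bound f w)
  map_add' w w' := by
    ext f
    simp
  map_smul' c w := by
    ext f
    simp

theorem JJ_apply (w : W 𝕜) (f : FF 𝕜) : JJ 𝕜 w f = f.1 w := rfl

theorem norm_JJ_le_iff {w : W 𝕜} {C : ℝ} (hC : 0 ≤ C) :
    ‖JJ 𝕜 w‖ ≤ C ↔ ∀ f : FF 𝕜, ‖f.1 w‖ ≤ C := by
  rw [BoundedContinuousFunction.norm_le hC]
  rfl

theorem norm_JJ_le (w : W 𝕜) : ‖JJ 𝕜 w‖ ≤ max ‖w.1‖ (4 * ‖w.2‖) :=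
  (norm_JJ_le_iff (le_max_of_le_left (norm_nonneg _))).2 fun f => FF_bound f w

/-- the functionals `(p, y) ↦ g p` with `‖g‖ ≤ 1` -/
noncomputable def fstF (g : StrongDual 𝕜 (C0 𝕜)) (hg : ‖g‖ ≤ 1) : FF 𝕜 :=
  ⟨g.comp (ContinuousLinearMap.fst 𝕜 _ _), fun n => by
    change ‖g (dd 𝕜 n).1‖ ≤ 1
    refine (g.le_opNorm _).trans ?_
    have := (dd_mem 𝕜 n).1
    exact mul_le_one₀ hg (norm_nonneg _) this.le⟩

/-- the functionals `(p, y) ↦ g y` with `‖g‖ ≤ 4 / 5` -/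
noncomputable def sndF (g : StrongDual 𝕜 (C0 𝕜)) (hg : ‖g‖ ≤ 4 / 5) : FF 𝕜 :=
  ⟨g.comp (ContinuousLinearMap.snd 𝕜 _ _), fun n => by
    change ‖g ((dd 𝕜 n).2 + e n)‖ ≤ 1
    refine (g.le_opNorm _).trans ?_
    have h1 := (dd_mem 𝕜 n).2
    have h2 : ‖(e n : C0 𝕜)‖ ≤ 1 := by
      have := norm_sum_e_le (𝕜 := 𝕜) {n} id Function.injective_id
      simpa using this
    have h3 : ‖(dd 𝕜 n).2 + e n‖ ≤ 5 / 4 := by
      refine (norm_add_le _ _).trans ?_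
      linarith
    nlinarith [norm_nonneg g, norm_nonneg ((dd 𝕜 n).2 + e n)]⟩

theorem norm_fst_le (w : W 𝕜) : ‖w.1‖ ≤ ‖JJ 𝕜 w‖ := by
  obtain ⟨g, hg, hgw⟩ := exists_dual_vector'' 𝕜 w.1
  have h := (norm_JJ_le_iff (norm_nonneg (JJ 𝕜 w))).1 le_rfl (fstF g hg)
  change ‖g w.1‖ ≤ _ at h
  rw [hgw, RCLike.norm_ofReal, abs_of_nonneg (norm_nonneg _)] at h
  exact h

theorem norm_snd_le (w : W 𝕜) : ‖w.2‖ ≤ 5 / 4 * ‖JJ 𝕜 w‖ := by
  obtain ⟨g, hg, hgw⟩ := exists_dual_vector'' 𝕜 w.2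
  have hn : ‖((4 / 5 : ℝ) : 𝕜)‖ = 4 / 5 := by
    rw [RCLike.norm_ofReal]; norm_num
  have hg' : ‖((4 / 5 : ℝ) : 𝕜) • g‖ ≤ 4 / 5 := by
    rw [norm_smul, hn]
    linarith
  have h := (norm_JJ_le_iff (norm_nonneg (JJ 𝕜 w))).1 le_rfl (sndF _ hg')
  change ‖((4 / 5 : ℝ) : 𝕜) • g w.2‖ ≤ _ at h
  rw [norm_smul, hn, hgw, RCLike.norm_ofReal, abs_of_nonneg (norm_nonneg _)] at h
  linarith

theorem JJ_injective : Function.Injective (JJ 𝕜) := by
  rw [injective_iff_map_eq_zero]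
  intro w hw
  have h1 := norm_fst_le w
  have h2 := norm_snd_le w
  rw [hw, norm_zero] at h1 h2
  have h1' : w.1 = 0 := norm_le_zero_iff.1 h1
  have h2' : w.2 = 0 := norm_le_zero_iff.1 (by linarith)
  exact Prod.ext h1' h2'

variable (𝕜) in
/-- the Banach space `X` -/
def XX : Type u := W 𝕜

instance : AddCommGroup (XX 𝕜) := inferInstanceAs (AddCommGroup (W 𝕜))
instance : Module 𝕜 (XX 𝕜) := inferInstanceAs (Module 𝕜 (W 𝕜))

variable (𝕜) in
/-- `JJ` as a map on `XX` -/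
noncomputable def JX : XX 𝕜 →ₗ[𝕜] (BoundedContinuousFunction (FF 𝕜) 𝕜) := JJ 𝕜

noncomputable instance : NormedAddCommGroup (XX 𝕜) :=
  NormedAddCommGroup.induced (XX 𝕜) (BoundedContinuousFunction (FF 𝕜) 𝕜) (JX 𝕜) JJ_injective

noncomputable instance : NormedSpace 𝕜 (XX 𝕜) :=
  NormedSpace.induced 𝕜 (XX 𝕜) (BoundedContinuousFunction (FF 𝕜) 𝕜) (JX 𝕜)

theorem XX.norm_def (w : XX 𝕜) : ‖w‖ = ‖JJ 𝕜 w‖ := rfl

theorem norm_le_JJ (w : W 𝕜) : ‖w‖ ≤ 5 / 4 * ‖JJ 𝕜 w‖ := by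
  rw [Prod.norm_def]
  refine max_le ?_ (norm_snd_le w)
  have := norm_fst_le (𝕜 := 𝕜) w
  linarith [norm_nonneg (JJ 𝕜 w)]

variable (𝕜) in
/-- the identity map from `c₀ × c₀` onto `X` -/
noncomputable def toXX : W 𝕜 ≃L[𝕜] XX 𝕜 :=
  LinearEquiv.toContinuousLinearEquivOfBounds
    ({ toFun := fun w => w, map_add' := fun _ _ => rfl, map_smul' := fun _ _ => rfl,
       invFun := fun w => w, left_inv := fun _ => rfl, right_inv := fun _ => rfl } :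
       W 𝕜 ≃ₗ[𝕜] XX 𝕜) 4 (5 / 4)
    (fun w => by
      change ‖JJ 𝕜 w‖ ≤ 4 * ‖w‖
      refine (norm_JJ_le w).trans (max_le ?_ ?_)
      · have := _root_.norm_fst_le w
        linarith [norm_nonneg w]
      · have := _root_.norm_snd_le w
        linarith)
    (fun w => norm_le_JJ (𝕜 := 𝕜) w)

@[simp] theorem toXX_apply (w : W 𝕜) : toXX 𝕜 w = w := rfl

instance : CompleteSpace (XX 𝕜) :=
  ((toXX 𝕜).symm.isUniformEmbedding.isUniformInducing.completeSpace_congr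
    (toXX 𝕜).symm.surjective).mpr inferInstance

end Pool.Agent.TH313.PA
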